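import Pool.Agent.helper89.HR.IT

/-! HR project (MP_58257a_co), row ST: the numbers. -/

set_option autoImplicit false

namespace Pool.Agent.helper78.HR

open Finset

theorem hrST_log30 : Real.log ((10 : ℝ) ^ 30) ≤ 70 := by
  rw [Real.log_le_iff_le_exp (by positivity)]
  have h1 : (2.718 : ℝ) ≤ Real.exp 1 := by
    have := Real.exp_one_gt_d9
    linarith
  calc (10 : ℝ) ^ 30 ≤ (2.718 : ℝ) ^ 70 := by norm_num
    _ ≤ (Real.exp 1) ^ 70 := pow_le_pow_left₀ (by norm_num) h1 70
    _ = Real.exp 70 := by rw [← Real.exp_nat_mul]; norm_num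

theorem hrST_logsqrt (s : ℝ) (hs : 3 ≤ s) : Real.log (s ^ 2) + 3 ≤ 2 * s := by
  have hs0 : 0 < s := by linarith
  have h1 : Real.log (s / 2) ≤ s / 2 - 1 := Real.log_le_sub_one_of_pos (by linarith)
  rw [Real.log_div (by linarith) (by norm_num)] at h1
  have h2 : Real.log 2 ≤ 1 := by
    have := Real.log_le_sub_one_of_pos (show (0 : ℝ) < 2 by norm_num)
    linarith
  have h3 : Real.log (s ^ 2) = 2 * Real.log s := by
    rw [Real.log_pow]; norm_num
  rw [h3]
  linarith

theorem hrST_tail (n M : ℝ) (hM : 1 ≤ M) (h : M * 10 ^ 30 ≤ n) :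
    M * (Real.log (n / M) + 3) ≤ 2 * n / 10 ^ 15 := by
  have hM0 : 0 < M := by linarith
  have hr : (10 : ℝ) ^ 30 ≤ n / M := by
    rw [le_div_iff₀ hM0]; linarith
  obtain ⟨s, hs⟩ : ∃ s, s = Real.sqrt (n / M) := ⟨_, rfl⟩
  have hr0 : 0 ≤ n / M := le_trans (by positivity) hr
  have hs2 : s ^ 2 = n / M := by rw [hs]; exact Real.sq_sqrt hr0
  have hs15 : (10 : ℝ) ^ 15 ≤ s := by
    rw [hs]
    apply Real.le_sqrt_of_sq_le
    calc ((10 : ℝ) ^ 15) ^ 2 = 10 ^ 30 := by norm_num
      _ ≤ n / M := hr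
  have h1 := hrST_logsqrt s (le_trans (by norm_num) hs15)
  rw [hs2] at h1
  have hs0 : 0 < s := lt_of_lt_of_le (by positivity) hs15
  have h2 : M * s ^ 2 = n := by
    rw [hs2]; field_simp
  calc M * (Real.log (n / M) + 3) ≤ M * (2 * s) := mul_le_mul_of_nonneg_left h1 hM0.le
    _ = 2 * (M * s) := by ring
    _ ≤ 2 * n / 10 ^ 15 := by
      rw [le_div_iff₀ (by positivity), ← h2]
      have : M * s * 10 ^ 15 ≤ M * s * s := mul_le_mul_of_nonneg_left hs15 (by positivity)
      nlinarith

theorem hrST_sum {ι : Type*} [Fintype ι] (x y : ι → ℤ) (hx : Function.Injective x) :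
    ∃ c : ℤ × ℤ → ℝ, (∀ z, 0 ≤ c z) ∧ ∑ z ∈ Gr x y, c z ≤ (Fintype.card ι : ℝ) / 1000 ∧
      ∀ (V : Finset (ℤ × ℤ)), ∀ f ∈ Fam x y 1000 V,
        1 ≤ ∑ z ∈ (Gr x y).filter (fun z => In x y f z), c z := by
  classical
  have hinj : Function.Injective (fun s => (x s, y s)) := by
    intro s t h
    exact hx (Prod.mk.inj h).1
  refine ⟨fun z => if z ∈ univ.image (fun s => (x s, y s)) then 1 / 1000 else 0, ?_, ?_, ?_⟩
  · intro z
    dsimp only
    split_ifs <;> norm_num
  · rw [← Finset.sum_filter, Finset.sum_const, nsmul_eq_mul]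
    have h1 : ((Gr x y).filter (fun z => z ∈ univ.image (fun s => (x s, y s)))).card ≤
        Fintype.card ι := by
      refine (Finset.card_le_card (t := univ.image (fun s => (x s, y s))) ?_).trans ?_
      · intro z hz
        exact (Finset.mem_filter.1 hz).2
      · exact Finset.card_image_le.trans (by simp)
    have h2 : (((Gr x y).filter (fun z => z ∈ univ.image (fun s => (x s, y s)))).card : ℝ) ≤
        (Fintype.card ι : ℝ) := by exact_mod_cast h1
    linarith
  · intro V f hf
    obtain ⟨hfr, hcard, -⟩ := (mem_Fam x y).1 hf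
    have hsub : (cont x y f).image (fun s => (x s, y s)) ⊆ (Gr x y).filter (fun z => In x y f z) := by
      intro z hz
      obtain ⟨s, hs, rfl⟩ := Finset.mem_image.1 hz
      rw [Finset.mem_filter]
      refine ⟨by simp [Gr], ?_⟩
      exact (mem_cont x y).1 hs
    refine le_trans ?_ (Finset.sum_le_sum_of_subset_of_nonneg hsub ?_)
    · rw [Finset.sum_image (fun a _ b _ h => hinj h)]
      have : ∀ s ∈ cont x y f, (if (x s, y s) ∈ univ.image (fun s => (x s, y s)) then
          (1 / 1000 : ℝ) else 0) = 1 / 1000 := by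
        intro s _
        rw [if_pos (Finset.mem_image.2 ⟨s, Finset.mem_univ _, rfl⟩)]
      rw [Finset.sum_congr rfl this, Finset.sum_const, hcard]
      norm_num
    · intro z _ _
      split_ifs <;> norm_num

theorem start {ι : Type*} [Fintype ι] (x y : ι → ℤ) (hx : Function.Injective x)
    (hy : Function.Injective y) :
    ∃ V : Finset (ℤ × ℤ), 2 * V.card ≤ Fintype.card ι ∧ Fam x y 1000 V = ∅ := by
  classical
  obtain ⟨n, hn⟩ : ∃ n, n = Fintype.card ι := ⟨_, rfl⟩
  by_cases h1000 : n < 1000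
  · refine ⟨∅, by simp, ?_⟩
    rw [Finset.eq_empty_iff_forall_notMem]
    intro f hf
    have h1 := ((mem_Fam x y).1 hf).2.1
    have h2 : (cont x y f).card ≤ Fintype.card ι := Finset.card_le_univ _
    omega
  · push Not at h1000
    obtain ⟨c, hc0, hcW, hcR⟩ := hrST_sum x y hx
    obtain ⟨M, hM⟩ : ∃ M, M = n / 10 ^ 30 := ⟨_, rfl⟩
    have hMn : M + 1 ≤ n := by
      have : n / 10 ^ 30 ≤ n / 1000 := Nat.div_le_div_left (by norm_num) (by norm_num)
      omega
    have hn0 : (1000 : ℝ) ≤ (n : ℝ) := by exact_mod_cast h1000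
    obtain ⟨V1, hV1, hNu⟩ := round x y hx hy 1000 ∅ c hc0 ((Fintype.card ι : ℝ) / 1000) hcW
      (hcR ∅) (M + 1) (by omega) (by omega) (by positivity)
    obtain ⟨V2, hV2, hF⟩ := iter x y hx hy 1000 (by norm_num) M (by omega) (∅ ∪ V1)
      (by simpa using hNu)
    refine ⟨V1 ∪ V2, ?_, ?_⟩
    · rw [← hn] at hV1 hV2 ⊢
      -- first cost
      have hlog : Real.log ((n : ℝ) / ((M + 1 : ℕ) : ℝ)) ≤ 70 := by
        refine le_trans (Real.log_le_log ?_ ?_) hrST_log30
        · positivity
        · rw [div_le_iff₀ (by positivity)]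
          have : n < 10 ^ 30 * (M + 1) := by
            rw [hM]
            have := Nat.lt_div_mul_add (a := n) (b := 10 ^ 30) (by norm_num)
            omega
          have h3 : (n : ℝ) < (10 ^ 30 * (M + 1) : ℕ) := by exact_mod_cast this
          push_cast at h3 ⊢
          linarith
      have h1 : (V1.card : ℝ) ≤ 0.284 * n + 1 := by
        refine hV1.trans ?_
        have : 4 * ((n : ℝ) / 1000) * (1 + Real.log ((n : ℝ) / ((M + 1 : ℕ) : ℝ))) ≤
            4 * ((n : ℝ) / 1000) * 71 :=
          mul_le_mul_of_nonneg_left (by linarith) (by positivity)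
        linarith
      have h2 : (V2.card : ℝ) ≤ 0.001 * n := by
        refine hV2.trans ?_
        rcases Nat.eq_zero_or_pos M with h0 | hpos
        · rw [h0]
          have hnn : (0 : ℝ) ≤ n := by positivity
          simp only [CharP.cast_eq_zero, mul_zero, zero_mul]
          positivity
        · have hM1 : (1 : ℝ) ≤ (M : ℝ) := by exact_mod_cast hpos
          have hMQ : (M : ℝ) * 10 ^ 30 ≤ (n : ℝ) := by
            have : M * 10 ^ 30 ≤ n := by rw [hM]; exact Nat.div_mul_le_self n _
            exact_mod_cast this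
          have := hrST_tail (n : ℝ) (M : ℝ) hM1 hMQ
          push_cast
          have h5 : 8 * (8 * ((1000 : ℝ) + 1) ^ 3 + 1) * M * (Real.log ((n : ℝ) / M) + 3) =
              (8 * (8 * ((1000 : ℝ) + 1) ^ 3 + 1)) * (M * (Real.log ((n : ℝ) / M) + 3)) := by ring
          rw [h5]
          calc (8 * (8 * ((1000 : ℝ) + 1) ^ 3 + 1)) * (M * (Real.log ((n : ℝ) / M) + 3)) ≤
              (8 * (8 * ((1000 : ℝ) + 1) ^ 3 + 1)) * (2 * n / 10 ^ 15) :=
                mul_le_mul_of_nonneg_left this (by positivity)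
            _ ≤ 0.001 * n := by
              have hnn : (0 : ℝ) ≤ n := by positivity
              norm_num
              nlinarith
      have h3 : ((V1 ∪ V2).card : ℝ) ≤ V1.card + V2.card := by
        exact_mod_cast Finset.card_union_le _ _
      have h4 : 2 * ((V1 ∪ V2).card : ℝ) ≤ n := by linarith
      exact_mod_cast h4
    · simpa using hF

end Pool.Agent.helper78.HR
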