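import Pool.Agent.helper73.HR.REof
import Pool.Agent.helper94.HR.SU
import Pool.Agent.helper78.HR.ST

/-! HR project (MP_58257a_co): the frozen statement S08871. -/

set_option autoImplicit false

namespace Pool.Agent.helper78.HR

/-- Every finite set of `n` plane points has a set of at most `n / 2` plane points which meets every
closed axis-parallel rectangle with at least 1000 points of the set. -/
theorem main :
    ∀ A : Finset (ℝ × ℝ), ∃ A' : Finset (ℝ × ℝ),
      A'.card ≤ A.card / 2 ∧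
      ∀ x₁ x₂ y₁ y₂ : ℝ,
        1000 ≤ (A.filter (fun p => x₁ ≤ p.1 ∧ p.1 ≤ x₂ ∧ y₁ ≤ p.2 ∧ p.2 ≤ y₂)).card →
        ∃ q ∈ A', x₁ ≤ q.1 ∧ q.1 ≤ x₂ ∧ y₁ ≤ q.2 ∧ q.2 ≤ y₂ :=
  hrRE_main_of (fun x y hx K hK l r b t h => subbox x y hx K hK l r b t h)
    (fun x y hx hy => start x y hx hy)

end Pool.Agent.helper78.HR
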