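import Pool.Agent.helper78.HR.Defs
import Pool.Agent.helper76.WH.MI
import Pool.Agent.helper57.HR.OP
import Pool.Agent.helper69.HR.ID
import Pool.Agent.helper79.HR.CH
import Pool.Agent.helper48.HR.FW
import Pool.Agent.helper72.HR.CO
import Pool.Agent.helper91.HR.XN
import Pool.Agent.helper67.HR.XS

/-! HR project (MP_58257a_co), row KL: the key lemma. -/

set_option autoImplicit false

namespace Pool.Agent.helper78.HR

open Finset

/-- Key lemma, integral form: a `k`-fold packing by tight boxes with exactly `K` points and without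
tokens has total at most `k * D * N`, if there are at most `N` pairwise disjoint such boxes. -/
theorem key {ι : Type*} [Fintype ι] (x y : ι → ℤ) (hx : Function.Injective x)
    (hy : Function.Injective y) (K : ℕ) (hK : 1 ≤ K) (V : Finset (ℤ × ℤ)) (N : ℕ)
    (hN : NuLE x y K V N) (k : ℕ) (w : Fm ι → ℕ)
    (hw : ∀ z ∈ Gr x y, ∑ f ∈ (Fam x y K V).filter (fun f => In x y f z), w f ≤ k) :
    ∑ f ∈ Fam x y K V, w f ≤ k * ((8 * (K + 1) ^ 3 + 1) * N) := by
  classical
  obtain ⟨w', hw1, hw2, hw3⟩ := normal_form (Fam x y K V)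
    (fun f (z : {z : ℤ × ℤ // z ∈ Gr x y}) => In x y f z.1) (ar x y)
    (fun f g => MSE x y K f g ∨ MNE x y K f g)
    (by
      intro f hf g hg hM
      rcases hM with h | h
      · refine ⟨?_, ?_⟩
        · rintro rfl
          exact absurd h.1 (lt_irrefl _)
        · obtain ⟨h1, m1, h2, m2, hz, ha⟩ := exch_SE x y K hK V f g hf hg h
          exact ⟨h1, m1, h2, m2, fun z => hz z.1, ha⟩
      · refine ⟨?_, ?_⟩
        · rintro rfl
          exact absurd h.1 (lt_irrefl _)
        · obtain ⟨h1, m1, h2, m2, hz, ha⟩ := exch_NE x y K hK V f g hf hg h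
          exact ⟨h1, m1, h2, m2, fun z => hz z.1, ha⟩)
    k w (fun z => hw z.1 z.2)
  rw [← hw2]
  obtain ⟨A, hA⟩ : ∃ A, A = (Fam x y K V).filter (fun f => 0 < w' f) := ⟨_, rfl⟩
  have hAF : A ⊆ Fam x y K V := by rw [hA]; exact Finset.filter_subset _ _
  have hApos : ∀ f ∈ A, 0 < w' f := by
    intro f hf
    rw [hA] at hf
    exact (Finset.mem_filter.1 hf).2
  have hsum : ∑ f ∈ Fam x y K V, w' f = ∑ f ∈ A, w' f := by
    symm
    apply Finset.sum_subset hAF
    intro f hf hfA
    by_contra hne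
    exact hfA (by rw [hA]; exact Finset.mem_filter.2 ⟨hf, Nat.pos_of_ne_zero hne⟩)
  obtain ⟨D, hDA, hD1, hD2⟩ := Pool.Agent.helper11.WH.exists_antichain (Cr x y)
    (fun a h => h.1 rfl) (fun a b c h1 h2 => Cr_trans x y hx hy a b c h1 h2) A k w'
    (by
      intro C hC hch
      rcases C.eq_empty_or_nonempty with rfl | hne
      · simp
      · obtain ⟨p, q, hpq⟩ := chain_pt x y C hne
          (fun f hf => ((mem_Fam x y).1 (hAF (hC hf))).1) hch
        have hz : (x p, y q) ∈ Gr x y := by
          simp [Gr]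
        refine le_trans (Finset.sum_le_sum_of_subset ?_) (hw1 ⟨(x p, y q), hz⟩)
        intro f hf
        exact Finset.mem_filter.2 ⟨hAF (hC hf), hpq f hf⟩)
  have hDF : D ⊆ Fam x y K V := hDA.trans hAF
  have hDM : ∀ f ∈ D, ∀ g ∈ D, ¬ MSE x y K f g ∧ ¬ MNE x y K f g := by
    intro f hf g hg
    have := hw3 f (hDF hf) g (hDF hg) (hApos f (hDA hf)) (hApos g (hDA hg))
    exact not_or.1 this
  obtain ⟨D', hD', hind, hcard⟩ := indep D (fun f g => ∃ z, In x y f z ∧ In x y g z)
    (fun f g => ∃ c ∈ corn x y f, In x y g c) (4 * (K + 1) ^ 3)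
    (by
      rintro f hf g hg hne ⟨z, hz1, hz2⟩
      exact corner x y hx hy K V f g (hDF hf) (hDF hg) hne (hD1 f hf g hg) (hD1 g hg f hf) z hz1 hz2)
    (by
      intro f hf
      have hsub : D.filter (fun g => g ≠ f ∧ ∃ c ∈ corn x y f, In x y g c) ⊆
          (corn x y f).biUnion (fun c => D.filter (fun g => In x y g c)) := by
        intro g hg
        obtain ⟨hgD, -, c, hc, hgc⟩ := Finset.mem_filter.1 hg
        exact Finset.mem_biUnion.2 ⟨c, hc, Finset.mem_filter.2 ⟨hgD, hgc⟩⟩
      refine (Finset.card_le_card hsub).trans (Finset.card_biUnion_le.trans ?_)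
      have h4 : (corn x y f).card ≤ 4 := by
        unfold corn
        exact (Finset.card_insert_le _ _).trans (Nat.succ_le_succ
          ((Finset.card_insert_le _ _).trans (Nat.succ_le_succ
            ((Finset.card_insert_le _ _).trans (Nat.succ_le_succ (by simp))))))
      refine (Finset.sum_le_card_nsmul _ _ ((K + 1) ^ 3) ?_).trans ?_
      · intro c _
        exact few x y hx hy K V D hDF hD1 hDM c
      · rw [smul_eq_mul]
        exact Nat.mul_le_mul_right _ h4)
  have hdisj : D'.card ≤ N := by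
    apply hN D' (hD'.trans hDF)
    intro f hf g hg hne z hz
    exact hind f hf g hg hne ⟨z, hz⟩
  rw [hsum]
  refine hD2.trans (Nat.mul_le_mul_left _ (hcard.trans ?_))
  have h8 : 2 * (4 * (K + 1) ^ 3) + 1 = 8 * (K + 1) ^ 3 + 1 := by ring
  rw [h8]
  exact Nat.mul_le_mul_left _ hdisj

end Pool.Agent.helper78.HR
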