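import Mathlib

/-!
HR project (MP_58257a_co, S08871): half-size hitting sets of 1000-rich rectangles. Definitions.

The points of a finite plane set in general position are the elements `i` of a finite type `ι`, the
point `i` lies at `(x i, y i)` with `x`, `y` injective. Boxes are closed; a tight box is given by its
left, right, bottom and top point.
-/

set_option autoImplicit false

namespace Pool.Agent.helper78.HR

open Finset

/-- A frame: left, right, bottom and top point of a box. -/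
abbrev Fm (ι : Type*) := ι × ι × ι × ι

variable {ι : Type*} (x y : ι → ℤ)

/-- The grid point `z` lies in the closed box with frame `f`. -/
def In (f : Fm ι) (z : ℤ × ℤ) : Prop :=
  x f.1 ≤ z.1 ∧ z.1 ≤ x f.2.1 ∧ y f.2.2.1 ≤ z.2 ∧ z.2 ≤ y f.2.2.2

instance instDecIn (f : Fm ι) (z : ℤ × ℤ) : Decidable (In x y f z) := by
  unfold In; infer_instance

/-- The frame `f` is tight: its four points lie in its box. -/
def Fr (f : Fm ι) : Prop :=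
  In x y f (x f.1, y f.1) ∧ In x y f (x f.2.1, y f.2.1) ∧
    In x y f (x f.2.2.1, y f.2.2.1) ∧ In x y f (x f.2.2.2, y f.2.2.2)

/-- The points in the box `[l, r] × [b, t]`. -/
def Pts [Fintype ι] (l r b t : ℤ) : Finset ι :=
  univ.filter (fun s => l ≤ x s ∧ x s ≤ r ∧ b ≤ y s ∧ y s ≤ t)

/-- The points in the box of the frame `f`. -/
def cont [Fintype ι] (f : Fm ι) : Finset ι :=
  Pts x y (x f.1) (x f.2.1) (y f.2.2.1) (y f.2.2.2)

/-- The tight boxes with exactly `K` points which contain no token of `V`. -/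
noncomputable def Fam [Fintype ι] (K : ℕ) (V : Finset (ℤ × ℤ)) : Finset (Fm ι) := by
  classical exact univ.filter (fun f => Fr x y f ∧ (cont x y f).card = K ∧ ∀ z ∈ V, ¬ In x y f z)

/-- The boxes of `D` are pairwise disjoint. -/
def Disj (D : Finset (Fm ι)) : Prop :=
  ∀ f ∈ D, ∀ g ∈ D, f ≠ g → ∀ z : ℤ × ℤ, ¬ (In x y f z ∧ In x y g z)

/-- There are at most `N` pairwise disjoint boxes in `Fam K V`. -/
def NuLE [Fintype ι] (K : ℕ) (V : Finset (ℤ × ℤ)) (N : ℕ) : Prop :=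
  ∀ D : Finset (Fm ι), D ⊆ Fam x y K V → Disj x y D → D.card ≤ N

/-- The grid. -/
def Gr [Fintype ι] : Finset (ℤ × ℤ) := (univ.image x) ×ˢ (univ.image y)

/-- The crossing order: the x-interval of `f` lies in that of `g`, the y-interval of `g` in that of `f`. -/
def Cr (f g : Fm ι) : Prop :=
  f ≠ g ∧ x g.1 ≤ x f.1 ∧ x f.2.1 ≤ x g.2.1 ∧ y f.2.2.1 ≤ y g.2.2.1 ∧ y g.2.2.2 ≤ y f.2.2.2

/-- Matched pair, `g` to the lower right of `f`. -/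
def MSE [Fintype ι] (K : ℕ) (f g : Fm ι) : Prop :=
  x f.1 < x g.1 ∧ x g.1 ≤ x f.2.1 ∧ x f.2.1 < x g.2.1 ∧
  y g.2.2.1 < y f.2.2.1 ∧ y f.2.2.1 ≤ y g.2.2.2 ∧ y g.2.2.2 < y f.2.2.2 ∧
  (∀ s, ¬ (x f.1 ≤ x s ∧ x s < x g.1 ∧ y g.2.2.2 < y s ∧ y s ≤ y f.2.2.2)) ∧
  (∀ s, ¬ (x f.2.1 < x s ∧ x s ≤ x g.2.1 ∧ y g.2.2.1 ≤ y s ∧ y s < y f.2.2.1)) ∧
  (Pts x y (x g.1) (x f.2.1) (y g.2.2.1) (y f.2.2.2)).card = K

/-- Matched pair, `g` to the upper right of `f`. -/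
def MNE [Fintype ι] (K : ℕ) (f g : Fm ι) : Prop :=
  x f.1 < x g.1 ∧ x g.1 ≤ x f.2.1 ∧ x f.2.1 < x g.2.1 ∧
  y f.2.2.1 < y g.2.2.1 ∧ y g.2.2.1 ≤ y f.2.2.2 ∧ y f.2.2.2 < y g.2.2.2 ∧
  (∀ s, ¬ (x f.1 ≤ x s ∧ x s < x g.1 ∧ y f.2.2.1 ≤ y s ∧ y s < y g.2.2.1)) ∧
  (∀ s, ¬ (x f.2.1 < x s ∧ x s ≤ x g.2.1 ∧ y f.2.2.2 < y s ∧ y s ≤ y g.2.2.2)) ∧
  (Pts x y (x g.1) (x f.2.1) (y f.2.2.1) (y g.2.2.2)).card = K

/-- The area of a box. -/
def ar (f : Fm ι) : ℕ := ((x f.2.1 - x f.1 + 1) * (y f.2.2.2 - y f.2.2.1 + 1)).toNat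

/-- The four corners of a box. -/
def corn (f : Fm ι) : Finset (ℤ × ℤ) :=
  {(x f.1, y f.2.2.1), (x f.1, y f.2.2.2), (x f.2.1, y f.2.2.1), (x f.2.1, y f.2.2.2)}

theorem mem_Pts [Fintype ι] {l r b t : ℤ} {s : ι} :
    s ∈ Pts x y l r b t ↔ l ≤ x s ∧ x s ≤ r ∧ b ≤ y s ∧ y s ≤ t := by
  simp [Pts]

theorem mem_cont [Fintype ι] {f : Fm ι} {s : ι} :
    s ∈ cont x y f ↔ x f.1 ≤ x s ∧ x s ≤ x f.2.1 ∧ y f.2.2.1 ≤ y s ∧ y s ≤ y f.2.2.2 := by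
  simp [cont, mem_Pts]

theorem mem_Fam [Fintype ι] {K : ℕ} {V : Finset (ℤ × ℤ)} {f : Fm ι} :
    f ∈ Fam x y K V ↔ Fr x y f ∧ (cont x y f).card = K ∧ ∀ z ∈ V, ¬ In x y f z := by
  classical
  simp [Fam]

end Pool.Agent.helper78.HR
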