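import Pool.Agent.helper73.HR.REof
import Pool.Agent.helper94.HR.SU
import Pool.Agent.helper89.HR.IT

/-! HR project (MP_58257a_co): hitting sets of size `O(n (log k) / k)` for `k`-rich rectangles, `k ≥ 250`. -/

set_option autoImplicit false

namespace Pool.Agent.helper78.HR

open Finset

theorem gk_log250 : Real.log 250 ≤ 5.52174 := by
  have h1 : Real.log 250 = 8 * Real.log 2 - Real.log (256 / 250) := by
    rw [Real.log_div (by norm_num) (by norm_num), show (256 : ℝ) = 2 ^ 8 by norm_num, Real.log_pow]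
    push_cast
    ring
  have h2 : 1 - (256 / 250 : ℝ)⁻¹ ≤ Real.log (256 / 250) := Real.one_sub_inv_le_log_of_pos (by norm_num)
  have h3 := Real.log_two_lt_d9
  rw [h1]
  norm_num at h2 ⊢
  linarith

theorem gk_log (k : ℝ) (hk : 250 ≤ k) : Real.log k ≤ 5.52174 + (k - 250) / 250 := by
  have h1 : Real.log k = Real.log 250 + Real.log (k / 250) := by
    rw [Real.log_div (by linarith) (by norm_num)]; ring
  have h2 : Real.log (k / 250) ≤ k / 250 - 1 := Real.log_le_sub_one_of_pos (by positivity)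
  have h3 := gk_log250
  rw [h1]
  linarith

/-- `(8 (k + 1) ^ 3 + 1) (5 log k + 3) ≤ k ^ 4` for `k ≥ 250` -/
theorem gk_num (k : ℝ) (hk : 250 ≤ k) : (8 * (k + 1) ^ 3 + 1) * (5 * Real.log k + 3) ≤ k ^ 4 := by
  have hL := gk_log k hk
  have hL0 : 0 ≤ Real.log k := Real.log_nonneg (by linarith)
  have h1 : 8 * (k + 1) ^ 3 + 1 ≤ 8.0964 * k ^ 3 := by
    have e1 : k + 1 ≤ 1.004 * k := by linarith
    have e2 : (k + 1) ^ 3 ≤ (1.004 * k) ^ 3 := pow_le_pow_left₀ (by linarith) e1 3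
    have e3 : (250 : ℝ) ^ 3 ≤ k ^ 3 := pow_le_pow_left₀ (by norm_num) hk 3
    rw [mul_pow] at e2
    norm_num at e2 e3 ⊢
    linarith
  have h2 : 5 * Real.log k + 3 ≤ 30.6087 + (k - 250) / 50 := by linarith
  have h3 : 8.0964 * (30.6087 + (k - 250) / 50) ≤ k := by
    norm_num
    linarith
  have hk3 : 0 ≤ k ^ 3 := by positivity
  calc (8 * (k + 1) ^ 3 + 1) * (5 * Real.log k + 3) ≤ (8.0964 * k ^ 3) * (30.6087 + (k - 250) / 50) :=
        mul_le_mul h1 h2 (by linarith) (by positivity)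
    _ = k ^ 3 * (8.0964 * (30.6087 + (k - 250) / 50)) := by ring
    _ ≤ k ^ 3 * k := mul_le_mul_of_nonneg_left h3 hk3
    _ = k ^ 4 := by ring

theorem gk_half (k : ℝ) (hk : 250 ≤ k) : (20 * Real.log k + 13) / k ≤ 1 / 2 := by
  have hL := gk_log k hk
  rw [div_le_iff₀ (by linarith)]
  linarith

/-- the tail is monotone -/
theorem gk_tail (n M R : ℝ) (hM : 0 < M) (hR : 1 ≤ R) (h : M * R ≤ n) : M * (Real.log (n / M) + 3) ≤ n / R * (Real.log R + 3) := by
  have hn : 0 < n := lt_of_lt_of_le (by positivity) h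
  have hR0 : 0 < R := by linarith
  have h0 : 0 ≤ Real.log R := Real.log_nonneg hR
  have h1 : Real.log (n / M) = Real.log R + Real.log (n / M / R) := by
    have hnM : n / M ≠ 0 := by positivity
    rw [Real.log_div hnM hR0.ne']; ring
  have h2 : Real.log (n / M / R) ≤ n / M / R - 1 := Real.log_le_sub_one_of_pos (by positivity)
  have h3 : 1 ≤ n / M / R := by
    rw [le_div_iff₀ hR0, le_div_iff₀ hM]; linarith
  have h4 : Real.log (n / M) + 3 ≤ (Real.log R + 3) * (n / M / R) := by nlinarith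
  calc M * (Real.log (n / M) + 3) ≤ M * ((Real.log R + 3) * (n / M / R)) := mul_le_mul_of_nonneg_left h4 hM.le
    _ = n / R * (Real.log R + 3) := by field_simp

theorem gk_sum {ι : Type*} [Fintype ι] (x y : ι → ℤ) (hx : Function.Injective x) (K : ℕ) (hK : 1 ≤ K) :
    ∃ c : ℤ × ℤ → ℝ, (∀ z, 0 ≤ c z) ∧ ∑ z ∈ Gr x y, c z ≤ (Fintype.card ι : ℝ) / K ∧
      ∀ (V : Finset (ℤ × ℤ)), ∀ f ∈ Fam x y K V,
        1 ≤ ∑ z ∈ (Gr x y).filter (fun z => In x y f z), c z := by
  classical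
  have hKR : (0 : ℝ) < K := by exact_mod_cast (by omega : 0 < K)
  have hinj : Function.Injective (fun s => (x s, y s)) := by
    intro s t h
    exact hx (Prod.mk.inj h).1
  refine ⟨fun z => if z ∈ univ.image (fun s => (x s, y s)) then 1 / (K : ℝ) else 0, ?_, ?_, ?_⟩
  · intro z
    dsimp only
    split_ifs
    · positivity
    · exact le_rfl
  · rw [← Finset.sum_filter, Finset.sum_const, nsmul_eq_mul]
    have h1 : ((Gr x y).filter (fun z => z ∈ univ.image (fun s => (x s, y s)))).card ≤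
        Fintype.card ι := by
      refine (Finset.card_le_card (t := univ.image (fun s => (x s, y s))) ?_).trans ?_
      · intro z hz
        exact (Finset.mem_filter.1 hz).2
      · exact Finset.card_image_le.trans (by simp)
    have h2 : (((Gr x y).filter (fun z => z ∈ univ.image (fun s => (x s, y s)))).card : ℝ) ≤
        (Fintype.card ι : ℝ) := by exact_mod_cast h1
    rw [div_eq_mul_one_div (Fintype.card ι : ℝ) (K : ℝ)]
    exact mul_le_mul_of_nonneg_right h2 (by positivity)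
  · intro V f hf
    obtain ⟨hfr, hcard, -⟩ := (mem_Fam x y).1 hf
    have hsub : (cont x y f).image (fun s => (x s, y s)) ⊆ (Gr x y).filter (fun z => In x y f z) := by
      intro z hz
      obtain ⟨s, hs, rfl⟩ := Finset.mem_image.1 hz
      rw [Finset.mem_filter]
      refine ⟨by simp [Gr], ?_⟩
      exact (mem_cont x y).1 hs
    refine le_trans ?_ (Finset.sum_le_sum_of_subset_of_nonneg hsub ?_)
    · rw [Finset.sum_image (fun a _ b _ h => hinj h)]
      have : ∀ s ∈ cont x y f, (if (x s, y s) ∈ univ.image (fun s => (x s, y s)) then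
          (1 / (K : ℝ)) else 0) = 1 / (K : ℝ) := by
        intro s _
        rw [if_pos (Finset.mem_image.2 ⟨s, Finset.mem_univ _, rfl⟩)]
      rw [Finset.sum_congr rfl this, Finset.sum_const, hcard, nsmul_eq_mul, mul_one_div_cancel hKR.ne']
    · intro z _ _
      split_ifs
      · positivity
      · exact le_rfl


theorem gk_start {ι : Type*} [Fintype ι] (x y : ι → ℤ) (hx : Function.Injective x)
    (hy : Function.Injective y) (K : ℕ) (hK : 250 ≤ K) :
    ∃ V : Finset (ℤ × ℤ), (V.card : ℝ) ≤ (20 * Real.log K + 13) / K * Fintype.card ι ∧ Fam x y K V = ∅ := by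
  classical
  have hKR : (250 : ℝ) ≤ K := by exact_mod_cast hK
  have hK0 : (0 : ℝ) < K := by linarith
  have hL0 : 0 ≤ Real.log K := Real.log_nonneg (by linarith)
  obtain ⟨n, hn⟩ : ∃ n, n = Fintype.card ι := ⟨_, rfl⟩
  by_cases hnK : n < K
  · refine ⟨∅, by simp only [Finset.card_empty, Nat.cast_zero]; positivity, ?_⟩
    rw [Finset.eq_empty_iff_forall_notMem]
    intro f hf
    have h1 := ((mem_Fam x y).1 hf).2.1
    have h2 : (cont x y f).card ≤ Fintype.card ι := Finset.card_le_univ _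
    omega
  · push Not at hnK
    obtain ⟨c, hc0, hcW, hcR⟩ := gk_sum x y hx K (by omega)
    have hQ0 : 0 < K ^ 5 := by positivity
    obtain ⟨M, hM⟩ : ∃ M, M = n / K ^ 5 := ⟨_, rfl⟩
    have hMn : M + 1 ≤ n := by
      have h1 : K ≤ K ^ 5 := Nat.le_self_pow (by norm_num) K
      have h2 : n / K ^ 5 ≤ n / K := Nat.div_le_div_left h1 (by omega)
      have h3 : n / K ≤ n / 250 := Nat.div_le_div_left hK (by norm_num)
      omega
    have hn0 : (K : ℝ) ≤ (n : ℝ) := by exact_mod_cast hnK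
    obtain ⟨V1, hV1, hNu⟩ := round x y hx hy K ∅ c hc0 ((Fintype.card ι : ℝ) / K) hcW
      (hcR ∅) (M + 1) (by omega) (by omega) (by positivity)
    obtain ⟨V2, hV2, hF⟩ := iter x y hx hy K (by omega) M (by omega) (∅ ∪ V1)
      (by simpa using hNu)
    refine ⟨V1 ∪ V2, ?_, ?_⟩
    · rw [← hn] at hV1 hV2 ⊢
      have hlog : Real.log ((n : ℝ) / ((M + 1 : ℕ) : ℝ)) ≤ 5 * Real.log K := by
        have h1 : 5 * Real.log K = Real.log ((K : ℝ) ^ 5) := by rw [Real.log_pow]; push_cast; ring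
        rw [h1]
        refine Real.log_le_log ?_ ?_
        · apply div_pos
          · linarith
          · positivity
        · rw [div_le_iff₀ (by positivity)]
          have h2 : n < K ^ 5 * (M + 1) := by
            rw [hM]
            have := Nat.lt_div_mul_add (a := n) (b := K ^ 5) hQ0
            calc n < n / K ^ 5 * K ^ 5 + K ^ 5 := this
              _ = K ^ 5 * (n / K ^ 5 + 1) := by ring
          have h3 : (n : ℝ) < (K ^ 5 * (M + 1) : ℕ) := by exact_mod_cast h2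
          push_cast at h3 ⊢
          linarith
      have h1 : (V1.card : ℝ) ≤ (20 * Real.log K + 4) / K * n + 1 := by
        refine hV1.trans ?_
        have e1 : 4 * ((n : ℝ) / K) * (1 + Real.log ((n : ℝ) / ((M + 1 : ℕ) : ℝ))) ≤
            4 * ((n : ℝ) / K) * (1 + 5 * Real.log K) :=
          mul_le_mul_of_nonneg_left (by linarith) (by positivity)
        have e2 : 4 * ((n : ℝ) / K) * (1 + 5 * Real.log K) = (20 * Real.log K + 4) / K * n := by ring
        linarith
      have h1' : (1 : ℝ) ≤ 1 / K * n := by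
        rw [one_div, inv_mul_eq_div, le_div_iff₀ hK0]; linarith
      have h2 : (V2.card : ℝ) ≤ 8 / K * n := by
        refine hV2.trans ?_
        rcases Nat.eq_zero_or_pos M with h0 | hpos
        · rw [h0]
          simp only [Nat.cast_zero, mul_zero, zero_mul]
          positivity
        · have hM1 : (0 : ℝ) < (M : ℝ) := by exact_mod_cast hpos
          have hMQ : (M : ℝ) * (K : ℝ) ^ 5 ≤ (n : ℝ) := by
            have : M * K ^ 5 ≤ n := by rw [hM]; exact Nat.div_mul_le_self n _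
            exact_mod_cast this
          have ht := gk_tail (n : ℝ) (M : ℝ) ((K : ℝ) ^ 5) hM1 (one_le_pow₀ (by linarith)) hMQ
          have hlogK : Real.log ((K : ℝ) ^ 5) = 5 * Real.log K := by rw [Real.log_pow]; push_cast; ring
          rw [hlogK] at ht
          have hnum := gk_num (K : ℝ) hKR
          push_cast
          have h5 : 8 * (8 * ((K : ℝ) + 1) ^ 3 + 1) * M * (Real.log ((n : ℝ) / M) + 3) =
              (8 * (8 * ((K : ℝ) + 1) ^ 3 + 1)) * (M * (Real.log ((n : ℝ) / M) + 3)) := by ring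
          rw [h5]
          calc (8 * (8 * ((K : ℝ) + 1) ^ 3 + 1)) * (M * (Real.log ((n : ℝ) / M) + 3)) ≤
              (8 * (8 * ((K : ℝ) + 1) ^ 3 + 1)) * ((n : ℝ) / (K : ℝ) ^ 5 * (5 * Real.log K + 3)) :=
                mul_le_mul_of_nonneg_left ht (by positivity)
            _ = (8 * ((n : ℝ) / (K : ℝ) ^ 5)) * ((8 * ((K : ℝ) + 1) ^ 3 + 1) * (5 * Real.log K + 3)) := by ring
            _ ≤ (8 * ((n : ℝ) / (K : ℝ) ^ 5)) * (K : ℝ) ^ 4 := mul_le_mul_of_nonneg_left hnum (by positivity)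
            _ = 8 / K * n := by field_simp
      have h3 : ((V1 ∪ V2).card : ℝ) ≤ V1.card + V2.card := by
        exact_mod_cast Finset.card_union_le _ _
      have h4 : (20 * Real.log K + 13) / K * (n : ℝ) = (20 * Real.log K + 4) / K * n + 1 / K * n + 8 / K * n := by
        field_simp
        ring
      rw [h4]
      linarith
    · simpa using hF

/-- from general position to real points, all `K`. -/
theorem gk_of (K : ℕ) (hK1 : 1 ≤ K) (γ : ℝ)
    (subbox : ∀ {ι : Type} [Fintype ι] (x y : ι → ℤ), Function.Injective x →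
      ∀ (K : ℕ), 1 ≤ K → ∀ (l r b t : ℤ), K ≤ (Pts x y l r b t).card →
      ∃ f : Fm ι, Fr x y f ∧ (cont x y f).card = K ∧
        l ≤ x f.1 ∧ x f.2.1 ≤ r ∧ b ≤ y f.2.2.1 ∧ y f.2.2.2 ≤ t)
    (start : ∀ {ι : Type} [Fintype ι] (x y : ι → ℤ), Function.Injective x →
      Function.Injective y →
      ∃ V : Finset (ℤ × ℤ), (V.card : ℝ) ≤ γ * Fintype.card ι ∧ Fam x y K V = ∅) :
    ∀ A : Finset (ℝ × ℝ), ∃ A' : Finset (ℝ × ℝ),
      (A'.card : ℝ) ≤ γ * A.card ∧
      ∀ x₁ x₂ y₁ y₂ : ℝ,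
        K ≤ (A.filter (fun p => x₁ ≤ p.1 ∧ p.1 ≤ x₂ ∧ y₁ ≤ p.2 ∧ p.2 ≤ y₂)).card →
        ∃ q ∈ A', x₁ ≤ q.1 ∧ q.1 ≤ x₂ ∧ y₁ ≤ q.2 ∧ q.2 ≤ y₂ := by
  classical
  intro A
  obtain ⟨x, hx⟩ := hrRE_rank (fun p : A => toLex (p.1.1, p.1.2))
  obtain ⟨y, hy⟩ := hrRE_rank (fun p : A => toLex (p.1.2, p.1.1))
  have hxi : Function.Injective x := by
    intro p q h
    have h1 := le_antisymm ((hx p q).1 h.le) ((hx q p).1 h.ge)
    have h2 := toLex.injective h1
    rw [Prod.mk.injEq] at h2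
    exact Subtype.ext (Prod.ext h2.1 h2.2)
  have hyi : Function.Injective y := by
    intro p q h
    have h1 := le_antisymm ((hy p q).1 h.le) ((hy q p).1 h.ge)
    have h2 := toLex.injective h1
    rw [Prod.mk.injEq] at h2
    exact Subtype.ext (Prod.ext h2.2 h2.1)
  obtain ⟨g, hg⟩ := hrRE_back x (fun p : A => p.1.1) (fun s q h => by
    have := (hx s q).1 h
    rw [Prod.Lex.toLex_le_toLex] at this
    rcases this with h | h
    · exact h.le
    · exact h.1.le)
  obtain ⟨k, hk⟩ := hrRE_back y (fun p : A => p.1.2) (fun s q h => by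
    have := (hy s q).1 h
    rw [Prod.Lex.toLex_le_toLex] at this
    rcases this with h | h
    · exact h.le
    · exact h.1.le)
  obtain ⟨V, hV1, hV2⟩ := start x y hxi hyi
  refine ⟨V.image fun z => (g z.1, k z.2), ?_, ?_⟩
  · have h1 : (V.image fun z => (g z.1, k z.2)).card ≤ V.card := Finset.card_image_le
    have h2 : Fintype.card A = A.card := Fintype.card_coe A
    rw [h2] at hV1
    have h3 : ((V.image fun z => (g z.1, k z.2)).card : ℝ) ≤ V.card := by exact_mod_cast h1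
    linarith
  · intro x₁ x₂ y₁ y₂ hcard
    set B : Finset A := univ.filter
      (fun p : A => x₁ ≤ p.1.1 ∧ p.1.1 ≤ x₂ ∧ y₁ ≤ p.1.2 ∧ p.1.2 ≤ y₂) with hB
    have hBmem : ∀ p : A, p ∈ B ↔ x₁ ≤ p.1.1 ∧ p.1.1 ≤ x₂ ∧ y₁ ≤ p.1.2 ∧ p.1.2 ≤ y₂ := by
      intro p
      simp [hB]
    have hBc : K ≤ B.card := by
      refine hcard.trans ?_
      have hsub : A.filter (fun p => x₁ ≤ p.1 ∧ p.1 ≤ x₂ ∧ y₁ ≤ p.2 ∧ p.2 ≤ y₂) ⊆
          B.image Subtype.val := by
        intro p hp
        rw [Finset.mem_filter] at hp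
        exact Finset.mem_image.2 ⟨⟨p, hp.1⟩, (hBmem _).2 hp.2, rfl⟩
      exact (Finset.card_le_card hsub).trans Finset.card_image_le
    have hBne : B.Nonempty := by
      rw [← Finset.card_pos]
      omega
    obtain ⟨p1, hp1, hp1'⟩ := Finset.exists_min_image B x hBne
    obtain ⟨p2, hp2, hp2'⟩ := Finset.exists_max_image B x hBne
    obtain ⟨p3, hp3, hp3'⟩ := Finset.exists_min_image B y hBne
    obtain ⟨p4, hp4, hp4'⟩ := Finset.exists_max_image B y hBne
    have hBP : B ⊆ Pts x y (x p1) (x p2) (y p3) (y p4) := by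
      intro s hs
      exact (mem_Pts x y).2 ⟨hp1' s hs, hp2' s hs, hp3' s hs, hp4' s hs⟩
    obtain ⟨f, hf1, hf2, hf3, hf4, hf5, hf6⟩ := subbox x y hxi K hK1
      (x p1) (x p2) (y p3) (y p4) (hBc.trans (Finset.card_le_card hBP))
    have hfF : f ∉ Fam x y K V := by
      rw [hV2]
      exact Finset.notMem_empty f
    rw [mem_Fam] at hfF
    have hz : ∃ z ∈ V, In x y f z := by
      by_contra hcon
      push Not at hcon
      exact hfF ⟨hf1, hf2, hcon⟩
    obtain ⟨z, hzV, hz1, hz2, hz3, hz4⟩ := hz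
    have a1 := hg p1 p2 z.1 (hf3.trans hz1) (hz2.trans hf4)
    have a2 := hk p3 p4 z.2 (hf5.trans hz3) (hz4.trans hf6)
    have b1 := (hBmem p1).1 hp1
    have b2 := (hBmem p2).1 hp2
    have b3 := (hBmem p3).1 hp3
    have b4 := (hBmem p4).1 hp4
    exact ⟨_, Finset.mem_image_of_mem _ hzV, b1.1.trans a1.1, a1.2.trans b2.2.1,
      b3.2.2.1.trans a2.1, a2.2.trans b4.2.2.2⟩

/-- hitting sets for the `K`-rich rectangles -/
theorem gk_main (K : ℕ) (hK : 250 ≤ K) (A : Finset (ℝ × ℝ)) : ∃ A' : Finset (ℝ × ℝ),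
    (A'.card : ℝ) ≤ (20 * Real.log K + 13) / K * A.card ∧ A'.card ≤ A.card / 2 ∧
      ∀ x₁ x₂ y₁ y₂ : ℝ,
        K ≤ (A.filter (fun p => x₁ ≤ p.1 ∧ p.1 ≤ x₂ ∧ y₁ ≤ p.2 ∧ p.2 ≤ y₂)).card →
        ∃ q ∈ A', x₁ ≤ q.1 ∧ q.1 ≤ x₂ ∧ y₁ ≤ q.2 ∧ q.2 ≤ y₂ := by
  obtain ⟨A', h1, h2⟩ := gk_of K (by omega) ((20 * Real.log K + 13) / K)
    (fun x y hx K hK l r b t h => subbox x y hx K hK l r b t h)
    (fun x y hx hy => gk_start x y hx hy K hK) A
  refine ⟨A', h1, ?_, h2⟩
  have hKR : (250 : ℝ) ≤ K := by exact_mod_cast hK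
  have h3 := gk_half (K : ℝ) hKR
  have h4 : (A'.card : ℝ) ≤ 1 / 2 * A.card := h1.trans (mul_le_mul_of_nonneg_right h3 (Nat.cast_nonneg _))
  have h5 : 2 * (A'.card : ℝ) ≤ A.card := by linarith
  have h6 : 2 * A'.card ≤ A.card := by exact_mod_cast h5
  omega

end Pool.Agent.helper78.HR
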