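import Pool.Agent.helper78.HR.Defs

/-!
HR project (MP_58257a_co, S08871): specification. Proof: team store HR_PROOF_helper78.md.
-/

set_option autoImplicit false

namespace Pool.Agent.helper78.HR

open Finset

/-- row HU. The hull of the points in a box is a tight frame. -/
theorem hull {ι : Type*} [Fintype ι] (x y : ι → ℤ) (l r b t : ℤ)
    (h : (Pts x y l r b t).Nonempty) :
    ∃ f : Fm ι, Fr x y f ∧ cont x y f = Pts x y l r b t ∧
      l ≤ x f.1 ∧ x f.2.1 ≤ r ∧ b ≤ y f.2.2.1 ∧ y f.2.2.2 ≤ t := by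
  sorry

/-- row SU (uses hull). A box with at least `K` points contains a tight box with exactly `K` points.
Proof: remove the right points one by one: induction on the number of points; drop the point with
the largest x (injectivity), i.e. replace r by x(rightmost) - 1. -/
theorem subbox {ι : Type*} [Fintype ι] (x y : ι → ℤ) (hx : Function.Injective x)
    (K : ℕ) (hK : 1 ≤ K) (l r b t : ℤ) (h : K ≤ (Pts x y l r b t).card) :
    ∃ f : Fm ι, Fr x y f ∧ (cont x y f).card = K ∧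
      l ≤ x f.1 ∧ x f.2.1 ≤ r ∧ b ≤ y f.2.2.1 ∧ y f.2.2.2 ≤ t := by
  sorry

/-- row XS (uses hull). Exchange for SE matched pairs: h1 = hull of [l',r]x[b',t], h2 = hull of
[l,r']x[b,t'] (f = [l,r]x[b,t], g = [l',r']x[b',t']). -/
theorem exch_SE {ι : Type*} [Fintype ι] (x y : ι → ℤ) (K : ℕ) (hK : 1 ≤ K)
    (V : Finset (ℤ × ℤ)) (f g : Fm ι) (hf : f ∈ Fam x y K V) (hg : g ∈ Fam x y K V)
    (h : MSE x y K f g) :
    ∃ h1 ∈ Fam x y K V, ∃ h2 ∈ Fam x y K V,
      (∀ z : ℤ × ℤ, (if In x y h1 z then 1 else 0) + (if In x y h2 z then 1 else 0) ≤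
        (if In x y f z then 1 else 0) + (if In x y g z then (1 : ℕ) else 0)) ∧
      ar x y h1 + ar x y h2 < ar x y f + ar x y g := by
  sorry

/-- row XN (uses hull, or XS and the reflection y -> -y). Exchange for NE matched pairs:
h1 = hull of [l',r]x[b,t'], h2 = hull of [l,r']x[b',t]. -/
theorem exch_NE {ι : Type*} [Fintype ι] (x y : ι → ℤ) (K : ℕ) (hK : 1 ≤ K)
    (V : Finset (ℤ × ℤ)) (f g : Fm ι) (hf : f ∈ Fam x y K V) (hg : g ∈ Fam x y K V)
    (h : MNE x y K f g) :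
    ∃ h1 ∈ Fam x y K V, ∃ h2 ∈ Fam x y K V,
      (∀ z : ℤ × ℤ, (if In x y h1 z then 1 else 0) + (if In x y h2 z then 1 else 0) ≤
        (if In x y f z then 1 else 0) + (if In x y g z then (1 : ℕ) else 0)) ∧
      ar x y h1 + ar x y h2 < ar x y f + ar x y g := by
  sorry

/-- row OP (abstract). Normal form: strong induction on the total area `∑ w f * a f`; as long as two
supported elements are in relation `M`, replace w by w - 1_f - 1_g + 1_h1 + 1_h2. -/
theorem normal_form {T Z : Type*} [DecidableEq T] (A : Finset T) (R : T → Z → Prop)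
    [∀ f z, Decidable (R f z)] (a : T → ℕ) (M : T → T → Prop)
    (hM : ∀ f ∈ A, ∀ g ∈ A, M f g → f ≠ g ∧ ∃ h1 ∈ A, ∃ h2 ∈ A,
      (∀ z, (if R h1 z then 1 else 0) + (if R h2 z then 1 else 0) ≤
        (if R f z then 1 else 0) + (if R g z then (1 : ℕ) else 0)) ∧ a h1 + a h2 < a f + a g)
    (k : ℕ) (w : T → ℕ) (hw : ∀ z, ∑ f ∈ A.filter (fun f => R f z), w f ≤ k) :
    ∃ w' : T → ℕ, (∀ z, ∑ f ∈ A.filter (fun f => R f z), w' f ≤ k) ∧
      ∑ f ∈ A, w' f = ∑ f ∈ A, w f ∧
      ∀ f ∈ A, ∀ g ∈ A, 0 < w' f → 0 < w' g → ¬ M f g := by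
  sorry

/-- row CH. The crossing order is transitive. -/
theorem Cr_trans {ι : Type*} (x y : ι → ℤ) (hx : Function.Injective x) (hy : Function.Injective y)
    (f g h : Fm ι) (h1 : Cr x y f g) (h2 : Cr x y g h) : Cr x y f h := by
  sorry

/-- row CH. A chain of the crossing order (of tight frames) has a common grid point
(x p, y q): take p = the left point with the largest x, q = the bottom point with the largest y. -/
theorem chain_pt {ι : Type*} (x y : ι → ℤ) (C : Finset (Fm ι)) (hC : C.Nonempty)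
    (hfr : ∀ f ∈ C, Fr x y f)
    (hch : ∀ f ∈ C, ∀ g ∈ C, f ≠ g → Cr x y f g ∨ Cr x y g f) :
    ∃ p q : ι, ∀ f ∈ C, In x y f (x p, y q) := by
  sorry

/-- row FW (step 1c of the proof page: the map f ↦ (numbers of points of the box in the SW, SE, NW
quadrant at z) is injective on the members of `F` which contain `z`). -/
theorem few {ι : Type*} [Fintype ι] (x y : ι → ℤ) (hx : Function.Injective x)
    (hy : Function.Injective y) (K : ℕ) (V : Finset (ℤ × ℤ)) (F : Finset (Fm ι))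
    (hF : F ⊆ Fam x y K V) (hC : ∀ f ∈ F, ∀ g ∈ F, ¬ Cr x y f g)
    (hM : ∀ f ∈ F, ∀ g ∈ F, ¬ MSE x y K f g ∧ ¬ MNE x y K f g) (z : ℤ × ℤ) :
    (F.filter (fun f => In x y f z)).card ≤ (K + 1) ^ 3 := by
  sorry

/-- row CO (step 1d). Two different intersecting members of `Fam` which do not cross: one contains a
corner of the other. -/
theorem corner {ι : Type*} [Fintype ι] (x y : ι → ℤ) (hx : Function.Injective x)
    (hy : Function.Injective y) (K : ℕ) (V : Finset (ℤ × ℤ)) (f g : Fm ι)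
    (hf : f ∈ Fam x y K V) (hg : g ∈ Fam x y K V) (hne : f ≠ g)
    (h1 : ¬ Cr x y f g) (h2 : ¬ Cr x y g f) (z : ℤ × ℤ) (hz1 : In x y f z) (hz2 : In x y g z) :
    (∃ c ∈ corn x y f, In x y g c) ∨ (∃ c ∈ corn x y g, In x y f c) := by
  sorry

/-- row ID (abstract, step 1d). Greedy independent set in a graph with an orientation of
out-degree at most `d`. -/
theorem indep {T : Type*} [DecidableEq T] (F : Finset T) (E O : T → T → Prop) [DecidableRel O]
    (d : ℕ) (hE : ∀ f ∈ F, ∀ g ∈ F, f ≠ g → E f g → O f g ∨ O g f)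
    (hO : ∀ f ∈ F, (F.filter (fun g => g ≠ f ∧ O f g)).card ≤ d) :
    ∃ D ⊆ F, (∀ f ∈ D, ∀ g ∈ D, f ≠ g → ¬ E f g) ∧ F.card ≤ (2 * d + 1) * D.card := by
  sorry

/-- row KL (helper78). Key lemma, integral form: `k`-fold packings. -/
theorem key {ι : Type*} [Fintype ι] (x y : ι → ℤ) (hx : Function.Injective x)
    (hy : Function.Injective y) (K : ℕ) (hK : 1 ≤ K) (V : Finset (ℤ × ℤ)) (N : ℕ)
    (hN : NuLE x y K V N) (k : ℕ) (w : Fm ι → ℕ)
    (hw : ∀ z ∈ Gr x y, ∑ f ∈ (Fam x y K V).filter (fun f => In x y f z), w f ≤ k) :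
    ∑ f ∈ Fam x y K V, w f ≤ k * ((8 * (K + 1) ^ 3 + 1) * N) := by
  sorry

/-- row DU (abstract). LP duality: real weights. (Possible: every real packing has total ≤ B; value v of
the game > 0; separate the compact convex set of load vectors of probability vectors on A from the
open orthant {u | ∀ z, u z < v} by geometric_hahn_banach_open; normalise.) First pass from integral `k`-fold packings to real
packings (floor of k * lambda, k to infinity), then separation (the convex hull of the load vectors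
and the open orthant {u : u z < v}), or Mathlib's Sion theorem, or the Farkas file of helper52. -/
theorem dual {T Z : Type*} [DecidableEq T] [DecidableEq Z] (A : Finset T) (G : Finset Z)
    (R : T → Z → Prop) [∀ f z, Decidable (R f z)] (B : ℕ)
    (hne : ∀ f ∈ A, ∃ z ∈ G, R f z)
    (h : ∀ (k : ℕ) (w : T → ℕ), (∀ z ∈ G, ∑ f ∈ A.filter (fun f => R f z), w f ≤ k) →
      ∑ f ∈ A, w f ≤ k * B) :
    ∃ c : Z → ℝ, (∀ z, 0 ≤ c z) ∧ (∀ f ∈ A, 1 ≤ ∑ z ∈ G.filter (fun z => R f z), c z) ∧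
      ∑ z ∈ G, c z ≤ B := by
  sorry

/-- row DE (step 2). A family of pairwise disjoint tight boxes is determined by the sets of its left,
right, bottom and top points. -/
theorem decode {ι : Type*} [DecidableEq ι] (x y : ι → ℤ) (hx : Function.Injective x)
    (hy : Function.Injective y) (D1 D2 : Finset (Fm ι))
    (h1 : ∀ f ∈ D1, Fr x y f) (h2 : ∀ f ∈ D2, Fr x y f) (d1 : Disj x y D1) (d2 : Disj x y D2)
    (e1 : D1.image (fun f => f.1) = D2.image (fun f => f.1))
    (e2 : D1.image (fun f => f.2.1) = D2.image (fun f => f.2.1))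
    (e3 : D1.image (fun f => f.2.2.1) = D2.image (fun f => f.2.2.1))
    (e4 : D1.image (fun f => f.2.2.2) = D2.image (fun f => f.2.2.2)) : D1 = D2 := by
  sorry

/-- row CT (uses decode). The number of families of `N` pairwise disjoint tight boxes. -/
theorem count {ι : Type*} [Fintype ι] [DecidableEq ι] (x y : ι → ℤ) (hx : Function.Injective x)
    (hy : Function.Injective y) (N : ℕ) (F : Finset (Finset (Fm ι)))
    (h : ∀ D ∈ F, (∀ f ∈ D, Fr x y f) ∧ Disj x y D ∧ D.card = N) :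
    F.card ≤ ((Fintype.card ι).choose N) ^ 4 := by
  sorry

/-- row GR (abstract, step 3). Greedy hitting set. -/
theorem greedy {U Z : Type*} [DecidableEq U] [DecidableEq Z] (F : Finset U) (G : Finset Z)
    (S : U → Z → Prop) [∀ u z, Decidable (S u z)] (c : Z → ℝ) (hc : ∀ z, 0 ≤ c z)
    (W N : ℝ) (hN : 0 < N) (hNW : N ≤ W) (hW : ∑ z ∈ G, c z ≤ W)
    (hS : ∀ u ∈ F, N ≤ ∑ z ∈ G.filter (fun z => S u z), c z)
    (m : ℕ) (hm : (F.card : ℝ) * (1 - N / W) ^ m < 1) :
    ∃ V1 ⊆ G, V1.card ≤ m ∧ ∀ u ∈ F, ∃ z ∈ V1, S u z := by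
  sorry

/-- row CB. Binomial bound. -/
theorem choose_bd (n N : ℕ) (hN : 1 ≤ N) (hn : N ≤ n) :
    ((n.choose N : ℕ) : ℝ) ≤ Real.exp (N * (1 + Real.log (n / N))) := by
  sorry

/-- row RD (step 3; uses count, greedy, choose_bd). One round. -/
theorem round {ι : Type*} [Fintype ι] (x y : ι → ℤ) (hx : Function.Injective x)
    (hy : Function.Injective y) (K : ℕ) (V : Finset (ℤ × ℤ)) (c : ℤ × ℤ → ℝ) (hc : ∀ z, 0 ≤ c z)
    (W : ℝ) (hW : ∑ z ∈ Gr x y, c z ≤ W)
    (hR : ∀ f ∈ Fam x y K V, 1 ≤ ∑ z ∈ (Gr x y).filter (fun z => In x y f z), c z)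
    (N : ℕ) (hN : 1 ≤ N) (hn : N ≤ Fintype.card ι) (hW0 : 0 ≤ W) :
    ∃ V1 : Finset (ℤ × ℤ),
      (V1.card : ℝ) ≤ 4 * W * (1 + Real.log ((Fintype.card ι : ℝ) / N)) + 1 ∧
      NuLE x y K (V ∪ V1) (N - 1) := by
  sorry

/-- row IT (step 4; uses key, dual, round). Strong induction on `M`, halving. Put n = card ι; note
that M ≤ n may be assumed (a disjoint family of tight boxes has at most n members). -/
theorem iter {ι : Type*} [Fintype ι] (x y : ι → ℤ) (hx : Function.Injective x)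
    (hy : Function.Injective y) (K : ℕ) (hK : 1 ≤ K) (M : ℕ) (hM : M ≤ Fintype.card ι)
    (V : Finset (ℤ × ℤ)) (hV : NuLE x y K V M) :
    ∃ V' : Finset (ℤ × ℤ),
      (V'.card : ℝ) ≤ 8 * (8 * (K + 1) ^ 3 + 1) * M * (Real.log ((Fintype.card ι : ℝ) / M) + 3) ∧
      Fam x y K (V ∪ V') = ∅ := by
  sorry

/-- row ST (uses round, iter). K = 1000, Q = 10^30, n = card ι. n < 1000: V = ∅ works. n ≥ 1000: start
with c = 1/1000 on the points (x s, y s), W = n/1000, N = n/Q + 1 (natural division): cost at most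
4 (n/1000)(1 + 30 log 10) + 1 ≤ 0.2805 n + 1, then NuLE (n/Q); iter with M = n/Q costs (if M ≥ 1)
8 D M (log (n/M) + 3), D = 8 * 1001^3 + 1 < 8.03e9, and with r = n/M ≥ 10^30, log r + 3 ≤ 2 √r
this is ≤ 6.5e10 * n * 2 / √r ≤ 0.001 n. -/
theorem start {ι : Type*} [Fintype ι] (x y : ι → ℤ) (hx : Function.Injective x)
    (hy : Function.Injective y) :
    ∃ V : Finset (ℤ × ℤ), 2 * V.card ≤ Fintype.card ι ∧ Fam x y 1000 V = ∅ := by
  sorry

/-- row RE (uses start, subbox, and helper52's RE_rank, RE_back). The frozen statement. -/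
theorem main :
    ∀ A : Finset (ℝ × ℝ), ∃ A' : Finset (ℝ × ℝ),
      A'.card ≤ A.card / 2 ∧
      ∀ x₁ x₂ y₁ y₂ : ℝ,
        1000 ≤ (A.filter (fun p => x₁ ≤ p.1 ∧ p.1 ≤ x₂ ∧ y₁ ≤ p.2 ∧ p.2 ≤ y₂)).card →
        ∃ q ∈ A', x₁ ≤ q.1 ∧ q.1 ≤ x₂ ∧ y₁ ≤ q.2 ∧ q.2 ≤ y₂ := by
  sorry

end Pool.Agent.helper78.HR
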